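import Pool.Agent.H880R3.AutStr

/-!
Computability of the relations.
-/

namespace Pool.Agent.H880R3.Aut

section

variable {α : Type} [Primcodable α]

theorem comp_ball {n : α → ℕ} {p : α → ℕ → Bool} (hn : Computable n) (hp : Computable₂ p) :
    Computable fun a => ball (n a) (p a) := by
  unfold ball
  refine Computable.nat_rec (h := fun a (q : ℕ × Bool) => q.2 && p a q.1) hn
    (Computable.const true) ?_
  exact (Primrec.and.to_comp).comp (Computable.snd.comp Computable.snd)
    (hp.comp Computable.fst (Computable.fst.comp Computable.snd))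

theorem comp_and {f g : α → Bool} (hf : Computable f) (hg : Computable g) :
    Computable fun a => f a && g a := (Primrec.and.to_comp).comp hf hg

theorem comp_or {f g : α → Bool} (hf : Computable f) (hg : Computable g) :
    Computable fun a => f a || g a := (Primrec.or.to_comp).comp hf hg

theorem comp_not {f : α → Bool} (hf : Computable f) : Computable fun a => !f a :=
  (Primrec.not.to_comp).comp hf

theorem prim_eq {β : Type} [Primcodable β] [DecidableEq β] {f g : α → β} (hf : Primrec f)
    (hg : Primrec g) : Primrec fun a => decide (f a = g a) := (Primrec.eq.comp hf hg).decide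

theorem prim_lt {f g : α → ℕ} (hf : Primrec f) (hg : Primrec g) :
    Primrec fun a => decide (f a < g a) := (Primrec.nat_lt.comp hf hg).decide

theorem prim_le {f g : α → ℕ} (hf : Primrec f) (hg : Primrec g) :
    Primrec fun a => decide (f a ≤ g a) := (Primrec.nat_le.comp hf hg).decide

theorem prim_nrow {s : α → Seq'} {m : α → ℕ} (hs : Primrec s) (hm : Primrec m) :
    Primrec fun a => nrow (s a) (m a) :=
  (Primrec.list_getD []).comp (Primrec.list_reverse.comp hs) hm

theorem prim_kk {s : α → Seq'} (hs : Primrec s) : Primrec fun a => kk (s a) :=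
  Primrec.list_length.comp (prim_nrow hs (Primrec.const 0))

theorem prim_fa {s : α → Seq'} {i m : α → ℕ} (hs : Primrec s) (hi : Primrec i) (hm : Primrec m) :
    Primrec fun a => fa (s a) (i a) (m a) :=
  Primrec.fst.comp ((Primrec.list_getD (0, 0)).comp (prim_nrow hs hm) hi)

theorem prim_ga {s : α → Seq'} {i m : α → ℕ} (hs : Primrec s) (hi : Primrec i) (hm : Primrec m) :
    Primrec fun a => ga (s a) (i a) (m a) :=
  Primrec.snd.comp ((Primrec.list_getD (0, 0)).comp (prim_nrow hs hm) hi)

theorem prim_cmp {s : α → Seq'} {j i : α → ℕ} (hs : Primrec s) (hj : Primrec j) (hi : Primrec i) :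
    Primrec fun a => cmp (s a) (j a) (i a) := by
  unfold cmp
  refine Primrec.nat_rec' (h := fun a (q : ℕ × Option ℕ) => q.2.bind fun v =>
    if v < (s a).length then some (fa (s a) q.1 v) else none) hi
    (Primrec.option_some.comp hj) ?_
  refine Primrec.option_bind (Primrec.snd.comp Primrec.snd) ?_
  have hs' : Primrec fun x : (α × ℕ × Option ℕ) × ℕ => s x.1.1 :=
    hs.comp (Primrec.fst.comp Primrec.fst)
  exact Primrec.ite (Primrec.nat_lt.comp Primrec.snd (Primrec.list_length.comp hs'))
    (Primrec.option_some.comp (prim_fa hs' (Primrec.fst.comp (Primrec.snd.comp Primrec.fst))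
      Primrec.snd)) (Primrec.const none)

theorem prim_chk {o : α → Option ℕ} {v : α → ℕ} (ho : Primrec o) (hv : Primrec v) :
    Primrec fun a => chk (o a) (v a) :=
  Primrec.option_getD.comp (Primrec.option_map ho (prim_eq Primrec.snd (hv.comp Primrec.fst)))
    (Primrec.const true)

theorem prim_maprange {m : α → ℕ} {f : α → ℕ → ℕ} (hm : Primrec m) (hf : Primrec₂ f) :
    Primrec fun a => (List.range (m a)).map (f a) :=
  Primrec.list_map (Primrec.list_range.comp hm) hf

variable {T : List ℕ → List ℕ → Bool} (hT : Computable₂ T)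

include hT in
theorem comp_okb {y : α → List ℕ} {s : α → Seq'} (hy : Primrec y) (hs : Primrec s) :
    Computable fun a => okb T (y a) (s a) := by
  unfold okb
  refine comp_and ?_ (comp_and ?_ ?_)
  · refine comp_ball (Primrec.list_length.comp hs).to_comp ?_
    exact (prim_eq (Primrec.list_length.comp (prim_nrow (hs.comp Primrec.fst) Primrec.snd))
      (prim_kk (hs.comp Primrec.fst))).to_comp
  · refine comp_ball (prim_kk hs).to_comp ?_
    refine comp_ball (p := fun (x : α × ℕ) m => T ((List.range m).map (fa (s x.1) x.2))
      ((List.range m).map (ga (s x.1) x.2)))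
      (Primrec.succ.comp (Primrec.list_length.comp (hs.comp Primrec.fst))).to_comp ?_
    refine hT.comp ?_ ?_
    · refine (prim_maprange (f := fun (x : (α × ℕ) × ℕ) j => fa (s x.1.1) x.1.2 j)
        Primrec.snd ?_).to_comp
      exact prim_fa (hs.comp (Primrec.fst.comp (Primrec.fst.comp Primrec.fst)))
        (Primrec.snd.comp (Primrec.fst.comp Primrec.fst)) Primrec.snd
    · refine (prim_maprange (f := fun (x : (α × ℕ) × ℕ) j => ga (s x.1.1) x.1.2 j)
        Primrec.snd ?_).to_comp
      exact prim_ga (hs.comp (Primrec.fst.comp (Primrec.fst.comp Primrec.fst)))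
        (Primrec.snd.comp (Primrec.fst.comp Primrec.fst)) Primrec.snd
  · refine comp_ball (Primrec.list_length.comp hy).to_comp ?_
    exact (prim_chk (prim_cmp (hs.comp Primrec.fst) Primrec.snd (prim_kk (hs.comp Primrec.fst)))
      ((Primrec.list_getD 0).comp (hy.comp Primrec.fst) Primrec.snd)).to_comp

include hT in
theorem comp_stp {y : α → List ℕ} {s' s : α → Seq'} (hy : Primrec y) (hs' : Primrec s')
    (hs : Primrec s) : Computable fun a => stp T (y a) (s' a) (s a) := by
  unfold stp
  refine comp_and (prim_eq (Primrec.list_length.comp hs')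
    (Primrec.succ.comp (Primrec.list_length.comp hs))).to_comp (comp_and ?_ (comp_okb hT hy hs'))
  exact (prim_eq (Primrec.list_tail.comp hs') hs).to_comp

include hT in
theorem comp_zb {y : α → List ℕ} (hy : Primrec y) : Computable fun a => zb T (y a) := by
  unfold zb
  refine comp_not (comp_ball (Primrec.succ.comp (Primrec.list_length.comp hy)).to_comp ?_)
  refine comp_or (comp_not ?_) ?_
  · refine comp_ball (p := fun (x : α × ℕ) i => decide ((y x.1).idxOf i < (y x.1).length))
      Computable.snd ?_
    have hy' : Primrec fun x : (α × ℕ) × ℕ => y x.1.1 := hy.comp (Primrec.fst.comp Primrec.fst)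
    exact (prim_lt (Primrec.list_idxOf.comp Primrec.snd hy')
      (Primrec.list_length.comp hy')).to_comp
  · refine hT.comp ?_ ?_
    · exact (Primrec.list_take.comp Primrec.snd (hy.comp Primrec.fst)).to_comp
    · refine (prim_maprange (f := fun (x : α × ℕ) i => (y x.1).idxOf i) Primrec.snd ?_).to_comp
      exact Primrec.list_idxOf.comp Primrec.snd (hy.comp (Primrec.fst.comp Primrec.fst))

include hT in
theorem comp_wst {w' w : α → Option (List ℕ × Seq')} (hw' : Primrec w') (hw : Primrec w) :
    Computable fun a => wst T (w' a) (w a) := by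
  unfold wst
  have h1 : Computable₂ fun (a : α) (p' : List ℕ × Seq') => ((w a).map fun p =>
      decide (p'.1 = p.1) && (zb T p.1 && stp T p.1 p'.2 p.2)).getD
      (zb T p'.1 && decide (p'.2 = [])) := by
    refine (Primrec.option_getD.to_comp).comp ?_ ?_
    · refine Computable.option_map (hw.comp Primrec.fst).to_comp ?_
      refine comp_and ?_ (comp_and ?_ ?_)
      · exact (prim_eq (Primrec.fst.comp (Primrec.snd.comp Primrec.fst))
          (Primrec.fst.comp Primrec.snd)).to_comp
      · exact comp_zb hT (Primrec.fst.comp Primrec.snd)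
      · exact comp_stp hT (Primrec.fst.comp Primrec.snd)
          (Primrec.snd.comp (Primrec.snd.comp Primrec.fst)) (Primrec.snd.comp Primrec.snd)
    · refine comp_and (comp_zb hT (Primrec.fst.comp Primrec.snd)) ?_
      exact (prim_eq (Primrec.snd.comp Primrec.snd) (Primrec.const [])).to_comp
  exact (Primrec.option_getD.to_comp).comp (Computable.option_map hw'.to_comp h1)
    (Computable.const false)

include hT in
theorem comp_rr {b a : α → ℕ} (hb : Primrec b) (ha : Primrec a) :
    Computable fun x => rr T (b x) (a x) := by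
  unfold rr ltb
  have hb' : Primrec fun x => Denumerable.ofNat Q' (b x) := (Primrec.ofNat Q').comp hb
  have ha' : Primrec fun x => Denumerable.ofNat Q' (a x) := (Primrec.ofNat Q').comp ha
  refine comp_and (prim_eq (Primrec.fst.comp hb') (Primrec.fst.comp ha')).to_comp
    (comp_and ?_ ?_)
  · exact comp_stp hT (Primrec.fst.comp ha') (Primrec.fst.comp (Primrec.snd.comp hb'))
      (Primrec.fst.comp (Primrec.snd.comp ha'))
  · exact comp_wst hT (Primrec.snd.comp (Primrec.snd.comp hb'))
      (Primrec.snd.comp (Primrec.snd.comp ha'))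

include hT in
theorem comp_validb {a : α → ℕ} {u : α → List ℕ} (ha : Primrec a) (hu : Primrec u) :
    Computable fun x => validb T (a x) (u x) := by
  unfold validb
  refine comp_ball (Primrec.list_length.comp hu).to_comp ?_
  have hu' : Primrec fun x : α × ℕ => u x.1 := hu.comp Primrec.fst
  refine comp_rr hT ?_ ?_
  · exact Primrec.fst.comp (Primrec.unpair.comp ((Primrec.list_getD 0).comp hu' Primrec.snd))
  · refine Primrec.ite (Primrec.eq.comp Primrec.snd (Primrec.const 0)) (ha.comp Primrec.fst) ?_
    exact Primrec.fst.comp (Primrec.unpair.comp ((Primrec.list_getD 0).comp hu'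
      (Primrec.nat_sub.comp Primrec.snd (Primrec.const 1))))

theorem comp_kbb {u v : α → List ℕ} (hu : Primrec u) (hv : Primrec v) :
    Computable fun x => kbb (u x) (v x) := by
  unfold kbb
  refine comp_not (comp_ball (Primrec.list_length.comp hu).to_comp (comp_not (comp_and ?_
    (comp_or ?_ ?_))))
  · refine comp_ball (p := fun (x : α × ℕ) i => decide (i < (v x.1).length) &&
      decide ((u x.1).getD i 0 = (v x.1).getD i 0)) Computable.snd (comp_and ?_ ?_)
    · exact (prim_lt Primrec.snd (Primrec.list_length.comp
        (hv.comp (Primrec.fst.comp Primrec.fst)))).to_comp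
    · exact (prim_eq ((Primrec.list_getD 0).comp (hu.comp (Primrec.fst.comp Primrec.fst))
        Primrec.snd) ((Primrec.list_getD 0).comp (hv.comp (Primrec.fst.comp Primrec.fst))
        Primrec.snd)).to_comp
  · exact (prim_le (Primrec.list_length.comp (hv.comp Primrec.fst)) Primrec.snd).to_comp
  · exact (prim_lt ((Primrec.list_getD 0).comp (hu.comp Primrec.fst) Primrec.snd)
      ((Primrec.list_getD 0).comp (hv.comp Primrec.fst) Primrec.snd)).to_comp

theorem prim_dc {c : α → ℕ} (hc : Primrec c) : Primrec fun x => dc (c x) :=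
  (Primrec.ofNat (List ℕ × List ℕ)).comp hc

theorem prim_rootc {y : α → List ℕ} (hy : Primrec y) : Primrec fun x => rootc (y x) :=
  Primrec.encode.comp (hy.pair (Primrec.const ([], none)))

include hT in
theorem comp_vb {c : α → ℕ} (hc : Primrec c) : Computable fun x => vb T (c x) := by
  unfold vb
  exact comp_validb hT (prim_rootc (Primrec.fst.comp (prim_dc hc))) (Primrec.snd.comp (prim_dc hc))

theorem prim_half {f : α → ℕ} (hf : Primrec f) : Primrec fun x => f x / 2 :=
  Primrec.nat_div.comp hf (Primrec.const 2)

theorem prim_mod {f : α → ℕ} (hf : Primrec f) : Primrec fun x => f x % 2 :=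
  Primrec.nat_mod.comp hf (Primrec.const 2)

theorem prim_get {l : α → List ℕ} (hl : Primrec l) (i : ℕ) : Primrec fun x => (l x).getD i 0 :=
  (Primrec.list_getD 0).comp hl (Primrec.const i)

theorem comp_R0 {l : α → List ℕ} (hl : Primrec l) : Computable fun x => R0 (l x) := by
  unfold R0
  exact comp_and (prim_eq (Primrec.list_length.comp hl) (Primrec.const 1)).to_comp
    (prim_eq (prim_mod (prim_get hl 0)) (Primrec.const 0)).to_comp

include hT in
theorem comp_R1 {l : α → List ℕ} (hl : Primrec l) : Computable fun x => R1 T (l x) := by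
  unfold R1
  refine comp_and (prim_lt (Primrec.const 0) (Primrec.list_length.comp hl)).to_comp
    (comp_and (prim_eq (prim_mod (prim_get hl 0)) (Primrec.const 1)).to_comp
    (comp_and (comp_vb hT (prim_half (prim_get hl 0))) ?_))
  refine (prim_eq (Primrec.list_tail.comp hl) ?_).to_comp
  refine Primrec.list_map (Primrec.fst.comp (prim_dc (prim_half (prim_get hl 0)))) ?_
  exact Primrec.nat_mul.comp (Primrec.const 2) Primrec.snd

include hT in
theorem comp_R2 {l : α → List ℕ} (hl : Primrec l) : Computable fun x => R2 T (l x) := by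
  unfold R2
  have h0 := prim_dc (prim_half (prim_get hl 0))
  have h1 := prim_dc (prim_half (prim_get hl 1))
  refine comp_and (comp_and (prim_eq (Primrec.list_length.comp hl) (Primrec.const 2)).to_comp
    (comp_and (prim_eq (prim_mod (prim_get hl 0)) (Primrec.const 1)).to_comp
      (prim_eq (prim_mod (prim_get hl 1)) (Primrec.const 1)).to_comp)) ?_
  refine comp_and (comp_and (comp_vb hT (prim_half (prim_get hl 0)))
    (comp_vb hT (prim_half (prim_get hl 1)))) ?_
  exact comp_and (prim_eq (Primrec.fst.comp h0) (Primrec.fst.comp h1)).to_comp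
    (comp_kbb (Primrec.snd.comp h0) (Primrec.snd.comp h1))

include hT in
theorem comp_R3 {i : α → ℕ} {l : α → List ℕ} (hi : Primrec i) (hl : Primrec l) :
    Computable fun x => R3 T (i x) (l x) := by
  unfold R3
  refine comp_and (comp_and ?_ (prim_eq (prim_mod hi) (Primrec.const 1)).to_comp)
    (comp_not (comp_vb hT (prim_half hi)))
  exact (prim_eq hl (Primrec.list_cons.comp hi (Primrec.const []))).to_comp

end

theorem comp_Rl {T : List ℕ → List ℕ → Bool} (hT : Computable₂ T) : Computable₂ (Rl T) := by
  show Computable fun x : ℕ × List ℕ => Rl T x.1 x.2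
  unfold Rl
  refine Computable.cond (prim_eq Primrec.fst (Primrec.const 0)).to_comp (comp_R0 Primrec.snd) ?_
  refine Computable.cond (prim_eq Primrec.fst (Primrec.const 1)).to_comp
    (comp_R1 hT Primrec.snd) ?_
  refine Computable.cond (prim_eq Primrec.fst (Primrec.const 2)).to_comp
    (comp_R2 hT Primrec.snd) ?_
  exact comp_R3 hT (Primrec.nat_sub.comp Primrec.fst (Primrec.const 3)) Primrec.snd

end Pool.Agent.H880R3.Aut
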