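import Pool.Agent.H880R3.AutComp

/-!
Every computable closed group of permutations is isomorphic to the automorphism group of a
computable structure.
-/

namespace Pool.Agent.H880R3.Aut

open Ordinal

/-- automorphisms of the structure -/
def HH (T : List ℕ → List ℕ → Bool) : Subgroup (Equiv.Perm ℕ) where
  carrier := {σ | ∀ (i : ℕ) (l : List ℕ), Rl T i (l.map ⇑σ) = Rl T i l}
  mul_mem' := by
    intro σ τ hσ hτ i l
    have h1 : l.map ⇑(σ * τ) = (l.map ⇑τ).map ⇑σ := by rw [List.map_map]; rfl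
    rw [h1, hσ, hτ]
  one_mem' := by
    intro i l
    have h1 : l.map ⇑(1 : Equiv.Perm ℕ) = l := by
      conv_rhs => rw [← List.map_id l]
      rfl
    rw [h1]
  inv_mem' := by
    intro σ hσ i l
    have h1 : (l.map ⇑σ⁻¹).map ⇑σ = l := by
      rw [List.map_map]
      conv_rhs => rw [← List.map_id l]
      congr 1
      funext x
      simp
    rw [← hσ i (l.map ⇑σ⁻¹), h1]

theorem mem_HH {T : List ℕ → List ℕ → Bool} {σ : Equiv.Perm ℕ} :
    σ ∈ HH T ↔ ∀ (i : ℕ) (l : List ℕ), Rl T i (l.map ⇑σ) = Rl T i l := Iff.rfl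

theorem map_two_inj {l l' : List ℕ} (h : l.map (fun m => 2 * m) = l'.map (fun m => 2 * m)) :
    l = l' := by
  have : Function.Injective fun m : ℕ => 2 * m := by
    intro a b hab
    simp only at hab
    omega
  exact (List.map_injective_iff.2 this) h

section

variable {T : List ℕ → List ℕ → Bool} {G : Subgroup (Equiv.Perm ℕ)}
  (hT : ∀ f g : ℕ → ℕ,
          (∀ n : ℕ, T ((List.range n).map f) ((List.range n).map g) = true) ↔
            ∃ σ ∈ G, (⇑σ = f ∧ ⇑σ.symm = g))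

theorem exP_mem (σ : G) : exP hT σ ∈ HH T := by
  intro i l
  rw [Bool.eq_iff_iff]
  constructor
  · intro h
    have h1 := Rl_imp hT σ⁻¹ i _ h
    have h2 : (l.map ⇑(exP hT σ)).map ⇑(exP hT σ⁻¹) = l := by
      rw [List.map_map]
      conv_rhs => rw [← List.map_id l]
      congr 1
      funext x
      show exP hT σ⁻¹ (exP hT σ x) = x
      rw [← Equiv.Perm.mul_apply, ← exP_mul]
      have : (σ⁻¹ * σ : G) = 1 := by simp
      rw [this, exP_apply]
      exact ex_one hT x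
    rwa [h2] at h1
  · exact Rl_imp hT σ i l

theorem even_iff {τ : Equiv.Perm ℕ} (hτ : τ ∈ HH T) (z : ℕ) : τ z % 2 = 0 ↔ z % 2 = 0 := by
  have h := hτ 0 [z]
  rw [Rl_zero, Rl_zero, Bool.eq_iff_iff, R0_iff, R0_iff] at h
  constructor
  · intro h1
    obtain ⟨z', h2, h3⟩ := h.1 ⟨τ z, rfl, h1⟩
    simp only [List.cons.injEq, and_true] at h2
    rw [h2]; exact h3
  · intro h1
    obtain ⟨z', h2, h3⟩ := h.2 ⟨z, rfl, h1⟩
    simp only [List.map_cons, List.map_nil, List.cons.injEq, and_true] at h2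
    rw [h2]; exact h3

/-- the permutation of the even elements -/
def rs {τ : Equiv.Perm ℕ} (hτ : τ ∈ HH T) : Equiv.Perm ℕ where
  toFun m := τ (2 * m) / 2
  invFun m := τ⁻¹ (2 * m) / 2
  left_inv m := by
    have h1 := (even_iff hτ (2 * m)).2 (by omega)
    have h2 : 2 * (τ (2 * m) / 2) = τ (2 * m) := by omega
    simp only
    rw [h2]
    simp
  right_inv m := by
    have h1 := (even_iff ((HH T).inv_mem hτ) (2 * m)).2 (by omega)
    have h2 : 2 * (τ⁻¹ (2 * m) / 2) = τ⁻¹ (2 * m) := by omega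
    simp only
    rw [h2]
    simp

theorem two_rs {τ : Equiv.Perm ℕ} (hτ : τ ∈ HH T) (m : ℕ) : 2 * rs hτ m = τ (2 * m) := by
  have h1 := (even_iff hτ (2 * m)).2 (by omega)
  show 2 * (τ (2 * m) / 2) = τ (2 * m)
  omega

theorem map_rs {τ : Equiv.Perm ℕ} (hτ : τ ∈ HH T) (y : List ℕ) :
    (y.map (fun m => 2 * m)).map ⇑τ = (y.map ⇑(rs hτ)).map (fun m => 2 * m) := by
  rw [List.map_map, List.map_map]
  apply List.map_congr_left
  intro m _
  exact (two_rs hτ m).symm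

theorem vl_map {τ : Equiv.Perm ℕ} (hτ : τ ∈ HH T) {z : ℕ} (h : Vl T z) :
    Vl T (τ z) ∧ tup (τ z) = (tup z).map ⇑(rs hτ) := by
  have h1 := hτ 1 (z :: (tup z).map (fun m => 2 * m))
  rw [Rl_one, Rl_one, (R1_iff _).2 ⟨z, h, rfl⟩, R1_iff] at h1
  obtain ⟨w, hw, h2⟩ := h1
  rw [List.map_cons, List.cons.injEq] at h2
  obtain ⟨rfl, h3⟩ := h2
  rw [map_rs hτ] at h3
  exact ⟨hw, (map_two_inj h3).symm⟩

include hT in
theorem lt_map {τ : Equiv.Perm ℕ} (hτ : τ ∈ HH T) {z z' : ℕ} (h : Vl T z) (h' : Vl T z')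
    (ht : tup z = tup z') (hlt : ps hT z < ps hT z') : ps hT (τ z) < ps hT (τ z') := by
  have h1 := hτ 2 [z, z']
  rw [Rl_two, Rl_two, (R2_iff hT _).2 ⟨z, z', h, h', rfl, ht, hlt⟩, R2_iff hT] at h1
  obtain ⟨w, w', -, -, h2, -, h3⟩ := h1
  simp only [List.map_cons, List.map_nil, List.cons.injEq, and_true] at h2
  rw [h2.1, h2.2]
  exact h3

theorem dummy_map {τ : Equiv.Perm ℕ} (hτ : τ ∈ HH T) {z : ℕ} (h : z % 2 = 1) (h' : ¬ Vl T z) :
    τ z = z := by
  have h1 := hτ (z + 3) [z]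
  rw [Rl_three, Rl_three, (R3_iff _ _).2 ⟨rfl, h, h'⟩, R3_iff] at h1
  have h2 := h1.1
  simpa using h2

open Classical in
/-- the action on positions -/
noncomputable def F (τ : Equiv.Perm ℕ) (y : List ℕ) (θ : Ordinal.{0}) : Ordinal.{0} :=
  if h : ∃ z, Vl T z ∧ tup z = y ∧ ps hT z = θ then ps hT (τ h.choose) else 0

theorem F_ps (τ : Equiv.Perm ℕ) {z : ℕ} (h : Vl T z) :
    F hT τ (tup z) (ps hT z) = ps hT (τ z) := by
  have h1 : ∃ z', Vl T z' ∧ tup z' = tup z ∧ ps hT z' = ps hT z := ⟨z, h, rfl, rfl⟩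
  unfold F
  rw [dif_pos h1]
  obtain ⟨h2, h3, h4⟩ := h1.choose_spec
  rw [vl_inj hT h2 h h3 h4]

theorem rs_inv {τ : Equiv.Perm ℕ} (hτ : τ ∈ HH T) (y : List ℕ) :
    (y.map ⇑(rs hτ)).map ⇑(rs ((HH T).inv_mem hτ)) = y := by
  rw [List.map_map]
  conv_rhs => rw [← List.map_id y]
  apply List.map_congr_left
  intro m _
  have h1 := two_rs hτ m
  have h2 := two_rs ((HH T).inv_mem hτ) (rs hτ m)
  rw [h1] at h2
  simp only [Function.comp_apply, id_eq]
  have h3 : τ⁻¹ (τ (2 * m)) = 2 * m := by simp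
  rw [h3] at h2
  omega

theorem F_spec {τ : Equiv.Perm ℕ} (hτ : τ ∈ HH T) (y : List ℕ) :
    Bt hT y = Bt hT (y.map ⇑(rs hτ)) ∧ ∀ θ ≤ Bt hT y, F hT τ y θ = θ := by
  refine rigid (F hT τ y) (F hT τ⁻¹ (y.map ⇑(rs hτ))) ?_ ?_ ?_ ?_ ?_
  · intro θ hθ
    obtain ⟨z, h1, rfl, rfl⟩ := vl_ex hT hθ
    obtain ⟨h2, h3⟩ := vl_map hτ h1
    rw [F_ps hT τ h1, ← h3]
    exact ps_le hT h2
  · intro θ hθ
    obtain ⟨z, h1, h4, rfl⟩ := vl_ex hT hθ
    obtain ⟨h2, h3⟩ := vl_map ((HH T).inv_mem hτ) h1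
    rw [← h4, F_ps hT τ⁻¹ h1]
    rw [h4, rs_inv] at h3
    rw [← h3]
    exact ps_le hT h2
  · intro θ η hlt hη
    obtain ⟨z, h1, h2, rfl⟩ := vl_ex hT (le_trans hlt.le hη)
    obtain ⟨w, k1, k2, rfl⟩ := vl_ex hT hη
    subst h2
    rw [F_ps hT τ h1]
    rw [← k2, F_ps hT τ k1]
    exact lt_map hT hτ h1 k1 k2.symm hlt
  · intro θ η hlt hη
    obtain ⟨z, h1, h2, rfl⟩ := vl_ex hT (le_trans hlt.le hη)
    obtain ⟨w, k1, k2, rfl⟩ := vl_ex hT hη
    have e1 : F hT τ⁻¹ (y.map ⇑(rs hτ)) (ps hT z) = ps hT (τ⁻¹ z) := by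
      rw [← h2]; exact F_ps hT τ⁻¹ h1
    have e2 : F hT τ⁻¹ (y.map ⇑(rs hτ)) (ps hT w) = ps hT (τ⁻¹ w) := by
      rw [← k2]; exact F_ps hT τ⁻¹ k1
    rw [e1, e2]
    exact lt_map hT ((HH T).inv_mem hτ) h1 k1 (h2.trans k2.symm) hlt
  · intro θ hθ
    obtain ⟨z, h1, rfl, rfl⟩ := vl_ex hT hθ
    obtain ⟨h2, h3⟩ := vl_map hτ h1
    rw [F_ps hT τ h1, ← h3, F_ps hT τ⁻¹ h2]
    simp

include hT in
theorem rs_mem {τ : Equiv.Perm ℕ} (hτ : τ ∈ HH T) : rs hτ ∈ G :=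
  mem_of_Bt hT fun y => (F_spec hT hτ y).1.symm

theorem exP_rs {τ : Equiv.Perm ℕ} (hτ : τ ∈ HH T) : exP hT ⟨rs hτ, rs_mem hT hτ⟩ = τ := by
  ext z
  rw [exP_apply]
  rcases Nat.mod_two_eq_zero_or_one z with h | h
  · rw [ex_even hT h]
    show 2 * rs hτ (z / 2) = τ z
    rw [two_rs]
    congr 1
    omega
  · by_cases h' : Vl T z
    · obtain ⟨a1, a2, a3⟩ := ex_vl hT (rs_mem hT hτ) h'
      obtain ⟨b1, b2⟩ := vl_map hτ h'
      refine vl_inj hT a1 b1 (a2.trans b2.symm) ?_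
      rw [a3, ← F_ps hT τ h']
      exact ((F_spec hT hτ (tup z)).2 _ (ps_le hT h')).symm
    · rw [ex_dummy hT h h', dummy_map hτ h h']

/-- the isomorphism -/
noncomputable def phi : G ≃* HH T :=
  MulEquiv.ofBijective
    ({ toFun := fun σ => ⟨exP hT σ, exP_mem hT σ⟩
       map_one' := by
        apply Subtype.ext
        ext z
        exact ex_one hT z
       map_mul' := fun σ τ => Subtype.ext (exP_mul hT σ τ) } : G →* HH T) (by
    constructor
    · intro σ τ h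
      have h1 : exP hT σ = exP hT τ := congrArg Subtype.val h
      apply Subtype.ext
      ext m
      have h2 : exP hT σ (2 * m) = exP hT τ (2 * m) := by rw [h1]
      rw [exP_apply, exP_apply, ex_two, ex_two] at h2
      omega
    · intro τ
      exact ⟨⟨rs τ.2, rs_mem hT τ.2⟩, Subtype.ext (exP_rs hT τ.2)⟩)

theorem phi_apply (σ : G) (n : ℕ) : (phi hT σ).1 n = ex hT σ.1 n := rfl

theorem exists_bound (l : List ℕ) : ∃ m, ∀ a ∈ l, a < m := by
  induction l with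
  | nil => exact ⟨0, by simp⟩
  | cons b l ih =>
    obtain ⟨m, hm⟩ := ih
    refine ⟨m + b + 1, fun a ha => ?_⟩
    rcases List.mem_cons.1 ha with rfl | ha
    · omega
    · have := hm a ha
      omega

theorem phi_cont (x : G) (n : ℕ) : ∃ m : ℕ, ∀ y : G,
    (∀ k : ℕ, k < m → y.1 k = x.1 k) → (phi hT y).1 n = (phi hT x).1 n := by
  rcases Nat.mod_two_eq_zero_or_one n with h | h
  · refine ⟨n / 2 + 1, fun y hy => ?_⟩
    rw [phi_apply, phi_apply, ex_even hT h, ex_even hT h, hy _ (Nat.lt_succ_self _)]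
  · by_cases h' : Vl T n
    · obtain ⟨m, hm⟩ := exists_bound (tup n)
      refine ⟨m, fun y hy => ?_⟩
      rw [phi_apply, phi_apply]
      obtain ⟨a1, a2, a3⟩ := ex_vl hT x.2 h'
      obtain ⟨b1, b2, b3⟩ := ex_vl hT y.2 h'
      refine vl_inj hT b1 a1 ?_ (b3.trans a3.symm)
      rw [a2, b2]
      apply List.map_congr_left
      intro a ha
      exact hy a (hm a ha)
    · refine ⟨0, fun y _ => ?_⟩
      rw [phi_apply, phi_apply, ex_dummy hT h h', ex_dummy hT h h']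

theorem phi_symm_cont (x : HH T) (n : ℕ) : ∃ m : ℕ, ∀ y : HH T,
    (∀ k : ℕ, k < m → y.1 k = x.1 k) → ((phi hT).symm y).1 n = ((phi hT).symm x).1 n := by
  refine ⟨2 * n + 1, fun y hy => ?_⟩
  have key : ∀ y : HH T, y.1 (2 * n) = 2 * ((phi hT).symm y).1 n := by
    intro y
    have h1 : y = phi hT ((phi hT).symm y) := by simp
    conv_lhs => rw [h1]
    rw [phi_apply, ex_two]
  have h1 := hy (2 * n) (Nat.lt_succ_self _)
  rw [key, key] at h1
  omega

end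

end Pool.Agent.H880R3.Aut
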