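import Mathlib

/-!
A well-founded relation on the natural numbers gives well-orders on finite sequences whose order
type depends only on a rank function.
-/

namespace Pool.Agent.H880R3.Aut

open Ordinal

/-- the descending sequences below `a`, with multiplicities -/
def valid (r : ℕ → ℕ → Bool) : ℕ → List ℕ → Prop
  | _, [] => True
  | a, i :: u => r i.unpair.1 a = true ∧ valid r i.unpair.1 u

/-- Kleene-Brouwer comparison -/
def kb : List ℕ → List ℕ → Prop
  | [], _ => False
  | _ :: _, [] => True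
  | i :: u, j :: v => i < j ∨ (i = j ∧ kb u v)

section

variable {r : ℕ → ℕ → Bool} (hr : WellFounded fun b a => r b a = true)

/-- the rank function: `B a = sup (B b + 1) * ω` over all `b` below `a` -/
noncomputable def B (a : ℕ) : Ordinal.{0} :=
  hr.fix (fun a IH => ⨆ b : {b : ℕ // r b a = true}, (IH b.1 b.2 + 1) * ω) a

theorem B_eq (a : ℕ) : B hr a = ⨆ b : {b : ℕ // r b a = true}, (B hr b.1 + 1) * ω := by
  unfold B
  rw [hr.fix_eq]

theorem le_B {a b : ℕ} (h : r b a = true) : (B hr b + 1) * ω ≤ B hr a := by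
  rw [B_eq hr a]
  exact Ordinal.le_iSup (fun b : {b : ℕ // r b a = true} => (B hr b.1 + 1) * ω) ⟨b, h⟩

theorem B_lt {a b : ℕ} (h : r b a = true) : B hr b < B hr a := by
  refine lt_of_lt_of_le ?_ (le_B hr h)
  calc B hr b < B hr b + 1 := lt_add_one _
    _ ≤ (B hr b + 1) * ω := Ordinal.le_mul_left _ Ordinal.omega0_pos

/-- monotonicity -/
theorem B_le {a a' : ℕ} (h : ∀ b, r b a = true → ∃ b', r b' a' = true ∧ B hr b ≤ B hr b') :
    B hr a ≤ B hr a' := by
  rw [B_eq hr a]
  refine Ordinal.iSup_le fun b => ?_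
  obtain ⟨b', h1, h2⟩ := h b.1 b.2
  refine le_trans ?_ (le_B hr h1)
  gcongr

/-- the `i`-th summand -/
noncomputable def al (a i : ℕ) : Ordinal.{0} :=
  if r i.unpair.1 a = true then B hr i.unpair.1 + 1 else 0

/-- partial sums -/
noncomputable def sm (a : ℕ) : ℕ → Ordinal.{0}
  | 0 => 0
  | n + 1 => sm a n + al hr a n

theorem sm_mono (a : ℕ) : Monotone (sm hr a) := by
  refine monotone_nat_of_le_succ fun n => ?_
  show sm hr a n ≤ sm hr a n + al hr a n
  exact le_self_add

theorem sm_le (a n : ℕ) : sm hr a n ≤ B hr a := by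
  have key : ∀ n, ∃ M : Ordinal.{0}, (M = 0 ∨ ∃ b, r b a = true ∧ M = B hr b + 1) ∧
      sm hr a n ≤ M * n := by
    intro n
    induction n with
    | zero => exact ⟨0, Or.inl rfl, by simp [sm]⟩
    | succ n ih =>
      obtain ⟨M, hM, h⟩ := ih
      have hal : al hr a n = 0 ∨ ∃ b, r b a = true ∧ al hr a n = B hr b + 1 := by
        unfold al
        split
        · rename_i h'
          exact Or.inr ⟨_, h', rfl⟩
        · exact Or.inl rfl
      rcases le_total M (al hr a n) with h1 | h1
      · refine ⟨al hr a n, hal, ?_⟩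
        show sm hr a n + al hr a n ≤ _
        rw [Nat.cast_succ, mul_add_one]
        gcongr
        exact le_trans h (by gcongr)
      · refine ⟨M, hM, ?_⟩
        show sm hr a n + al hr a n ≤ _
        rw [Nat.cast_succ, mul_add_one]
        gcongr
  obtain ⟨M, hM, h⟩ := key n
  rcases hM with rfl | ⟨b, hb, rfl⟩
  · rw [zero_mul] at h
    exact le_trans h (by simp)
  · refine le_trans h (le_trans ?_ (le_B hr hb))
    gcongr
    exact (Ordinal.natCast_lt_omega0 n).le

theorem le_sm {a b : ℕ} (h : r b a = true) (t : ℕ) :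
    (B hr b + 1) * ((t + 1 : ℕ) : Ordinal.{0}) ≤ sm hr a (Nat.pair b t + 1) := by
  have hal : ∀ t, al hr a (Nat.pair b t) = B hr b + 1 := by
    intro t
    unfold al
    rw [Nat.unpair_pair, if_pos h]
  induction t with
  | zero =>
    show _ ≤ sm hr a (Nat.pair b 0) + al hr a (Nat.pair b 0)
    rw [hal]
    simp
  | succ t ih =>
    show _ ≤ sm hr a (Nat.pair b (t + 1)) + al hr a (Nat.pair b (t + 1))
    rw [hal, Nat.cast_succ, mul_add_one]
    gcongr
    refine le_trans ih (sm_mono hr a ?_)
    exact Nat.pair_lt_pair_right b (Nat.lt_succ_self t)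

theorem B_eq_iSup (a : ℕ) : B hr a = ⨆ n, sm hr a n := by
  apply le_antisymm
  · rw [B_eq hr a]
    refine Ordinal.iSup_le fun b => ?_
    rw [Ordinal.mul_le_iff_of_isSuccLimit Ordinal.isSuccLimit_omega0]
    intro k hk
    obtain ⟨t, rfl⟩ := Ordinal.lt_omega0.1 hk
    refine le_trans ?_ (Ordinal.le_iSup (sm hr a) (Nat.pair b.1 t + 1))
    refine le_trans ?_ (le_sm hr b.2 t)
    gcongr
    exact Nat.le_succ t
  · exact Ordinal.iSup_le fun n => sm_le hr a n

/-- the position of a descending sequence -/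
noncomputable def pos (a : ℕ) : List ℕ → Ordinal.{0}
  | [] => B hr a
  | i :: u => sm hr a i + pos i.unpair.1 u

theorem pos_le {a : ℕ} {u : List ℕ} (h : valid r a u) : pos hr a u ≤ B hr a := by
  induction u generalizing a with
  | nil => exact le_rfl
  | cons i u ih =>
    obtain ⟨h1, h2⟩ := h
    refine le_trans ?_ (sm_le hr a (i + 1))
    show sm hr a i + pos hr i.unpair.1 u ≤ sm hr a i + al hr a i
    unfold al
    rw [if_pos h1]
    gcongr
    exact le_trans (ih h2) (le_of_lt (lt_add_one _))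

theorem pos_cons_lt {a i : ℕ} {u : List ℕ} (h : valid r a (i :: u)) :
    pos hr a (i :: u) < sm hr a (i + 1) := by
  obtain ⟨h1, h2⟩ := h
  show sm hr a i + pos hr i.unpair.1 u < sm hr a i + al hr a i
  unfold al
  rw [if_pos h1]
  exact (add_lt_add_iff_left _).2 (lt_of_le_of_lt (pos_le hr h2) (lt_add_one _))

theorem kb_iff {a : ℕ} {u v : List ℕ} (hu : valid r a u) (hv : valid r a v) :
    kb u v ↔ pos hr a u < pos hr a v := by
  induction u generalizing a v with
  | nil =>
    have h1 : ¬ kb [] v := by cases v <;> exact id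
    exact ⟨fun h => absurd h h1, fun h => absurd h (not_lt.2 (pos_le hr hv))⟩
  | cons i u ih =>
    cases v with
    | nil =>
      exact ⟨fun _ => lt_of_lt_of_le (pos_cons_lt hr hu) (sm_le hr a _), fun _ => trivial⟩
    | cons j v =>
      have h1 : kb (i :: u) (j :: v) ↔ i < j ∨ (i = j ∧ kb u v) := Iff.rfl
      rw [h1]
      have hlt : ∀ {i j : ℕ} {u v : List ℕ}, valid r a (i :: u) → i < j →
          pos hr a (i :: u) < pos hr a (j :: v) := by
        intro i j u v hu hij
        refine lt_of_lt_of_le (pos_cons_lt hr hu) ?_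
        refine le_trans (sm_mono hr a (Nat.succ_le_of_lt hij)) ?_
        exact le_self_add
      rcases lt_trichotomy i j with h | h | h
      · exact ⟨fun _ => hlt hu h, fun _ => Or.inl h⟩
      · subst h
        rw [show pos hr a (i :: u) = sm hr a i + pos hr i.unpair.1 u from rfl,
          show pos hr a (i :: v) = sm hr a i + pos hr i.unpair.1 v from rfl,
          add_lt_add_iff_left, ← ih hu.2 hv.2]
        simp
      · constructor
        · rintro (h' | ⟨h', -⟩) <;> omega
        · intro h'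
          exact absurd h' (not_lt.2 (hlt hv h).le)

theorem pos_surj (a : ℕ) (θ : Ordinal.{0}) (h : θ ≤ B hr a) : ∃ u, valid r a u ∧ pos hr a u = θ := by
  induction a using hr.induction generalizing θ with
  | _ a ih =>
    rcases eq_or_lt_of_le h with h | h
    · exact ⟨[], trivial, h.symm⟩
    · rw [B_eq_iSup, Ordinal.lt_iSup_iff] at h
      classical
      have hn : θ < sm hr a (Nat.find h) := Nat.find_spec h
      obtain ⟨m, hm⟩ : ∃ m, Nat.find h = m + 1 := by
        refine ⟨Nat.find h - 1, ?_⟩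
        have : Nat.find h ≠ 0 := by
          intro h0
          rw [h0] at hn
          exact absurd hn (by simp [sm])
        omega
      have hm2 : sm hr a m ≤ θ := not_lt.1 (Nat.find_min h (by omega))
      rw [hm] at hn
      have hn' : θ < sm hr a m + al hr a m := hn
      obtain ⟨θ', rfl⟩ : ∃ θ', θ = sm hr a m + θ' := ⟨θ - sm hr a m, (Ordinal.add_sub_cancel_of_le hm2).symm⟩
      rw [add_lt_add_iff_left] at hn'
      unfold al at hn'
      split at hn'
      · rename_i hr'
        obtain ⟨u, hu, hu2⟩ := ih _ hr' θ' (Order.lt_add_one_iff.1 hn')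
        exact ⟨m :: u, ⟨hr', hu⟩, by rw [← hu2]; rfl⟩
      · exact absurd hn' (by simp)

theorem pos_inj {a : ℕ} {u v : List ℕ} (hu : valid r a u) (hv : valid r a v)
    (h : pos hr a u = pos hr a v) : u = v := by
  induction u generalizing a v with
  | nil =>
    cases v with
    | nil => rfl
    | cons j v =>
      have := lt_of_lt_of_le (pos_cons_lt hr hv) (sm_le hr a _)
      exact absurd h (ne_of_gt this)
  | cons i u ih =>
    cases v with
    | nil =>
      have := lt_of_lt_of_le (pos_cons_lt hr hu) (sm_le hr a _)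
      exact absurd h (ne_of_lt this)
    | cons j v =>
      rcases lt_trichotomy i j with h1 | h1 | h1
      · exact absurd h (ne_of_lt ((kb_iff hr hu hv).1 (Or.inl h1)))
      · subst h1
        have h2 : sm hr a i + pos hr i.unpair.1 u = sm hr a i + pos hr i.unpair.1 v := h
        rw [ih hu.2 hv.2 (add_left_cancel h2)]
      · exact absurd h (ne_of_gt ((kb_iff hr hv hu).1 (Or.inl h1)))

end

/-- order isomorphisms between closed initial segments of the ordinals are trivial -/
theorem rigid {α β : Ordinal.{0}} (f g : Ordinal.{0} → Ordinal.{0})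
    (hf : ∀ θ ≤ α, f θ ≤ β) (hg : ∀ θ ≤ β, g θ ≤ α)
    (hf' : ∀ θ η, θ < η → η ≤ α → f θ < f η) (hg' : ∀ θ η, θ < η → η ≤ β → g θ < g η)
    (hgf : ∀ θ ≤ α, g (f θ) = θ) :
    α = β ∧ ∀ θ ≤ α, f θ = θ := by
  have key : ∀ (f : Ordinal.{0} → Ordinal.{0}) (α : Ordinal.{0}),
      (∀ θ η, θ < η → η ≤ α → f θ < f η) → ∀ θ ≤ α, θ ≤ f θ := by
    intro f α hf' θ hθ
    by_contra hcon
    push Not at hcon
    obtain ⟨m, ⟨hm1, hm2⟩, hm3⟩ := WellFounded.has_min (wellFounded_lt (α := Ordinal.{0}))
      {θ | θ ≤ α ∧ f θ < θ} ⟨θ, hθ, hcon⟩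
    have h1 := hf' _ _ hm2 hm1
    exact hm3 (f m) ⟨le_trans hm2.le hm1, h1⟩ hm2
  have h1 : ∀ θ ≤ α, θ ≤ f θ := key f α hf'
  have h2 : ∀ θ ≤ β, θ ≤ g θ := key g β hg'
  have h3 : ∀ θ ≤ α, f θ = θ := by
    intro θ hθ
    have h4 := h2 (f θ) (hf θ hθ)
    rw [hgf θ hθ] at h4
    exact le_antisymm h4 (h1 θ hθ)
  refine ⟨le_antisymm ?_ ?_, h3⟩
  · exact le_trans (h1 α le_rfl) (hf α le_rfl)
  · exact le_trans (h2 β le_rfl) (hg β le_rfl)

end Pool.Agent.H880R3.Aut
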