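import Pool.Agent.H880R3.AutWf

/-!
The combined relation and the rank of a tuple.
-/

namespace Pool.Agent.H880R3.Aut

open Ordinal

abbrev Q' : Type := List ℕ × Seq' × Option (List ℕ × Seq')

def wst (T : List ℕ → List ℕ → Bool) (w' w : Option (List ℕ × Seq')) : Bool :=
  (w'.map fun p' =>
    (w.map fun p => decide (p'.1 = p.1) && (zb T p.1 && stp T p.1 p'.2 p.2)).getD
      (zb T p'.1 && decide (p'.2 = []))).getD false

def ltb (T : List ℕ → List ℕ → Bool) (q' q : Q') : Bool :=
  decide (q'.1 = q.1) && (stp T q.1 q'.2.1 q.2.1 && wst T q'.2.2 q.2.2)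

def rr (T : List ℕ → List ℕ → Bool) (b a : ℕ) : Bool :=
  ltb T (Denumerable.ofNat Q' b) (Denumerable.ofNat Q' a)

section

variable {T : List ℕ → List ℕ → Bool} {G : Subgroup (Equiv.Perm ℕ)}
  (hT : ∀ f g : ℕ → ℕ,
          (∀ n : ℕ, T ((List.range n).map f) ((List.range n).map g) = true) ↔
            ∃ σ ∈ G, (⇑σ = f ∧ ⇑σ.symm = g))

theorem wst_some {y y' : List ℕ} {s s' : Seq'} :
    wst T (some (y', s')) (some (y, s)) = true ↔ y' = y ∧ Zp T y ∧ stp T y s' s = true := by
  unfold wst
  simp only [Option.map_some, Option.getD_some, Bool.and_eq_true, decide_eq_true_eq, zb_iff]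

theorem wst_none {y' : List ℕ} {s' : Seq'} :
    wst T (some (y', s')) none = true ↔ Zp T y' ∧ s' = [] := by
  unfold wst
  simp only [Option.map_some, Option.map_none, Option.getD_some, Option.getD_none,
    Bool.and_eq_true, decide_eq_true_eq, zb_iff]

include hT in
theorem wst_wf : WellFounded fun w' w => wst T w' w = true := by
  have hacc : ∀ y : List ℕ, ∀ s : Seq', Acc (fun w' w => wst T w' w = true) (some (y, s)) := by
    intro y s
    by_cases hy : Zp T y
    · induction s using (stp_wf hT hy).induction with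
      | _ s ih =>
        refine Acc.intro _ fun w' hw' => ?_
        cases w' with
        | none => exact absurd hw' (by simp [wst])
        | some p =>
          obtain ⟨y', s'⟩ := p
          rw [wst_some] at hw'
          obtain ⟨rfl, -, h⟩ := hw'
          exact ih s' h
    · refine Acc.intro _ fun w' hw' => ?_
      cases w' with
      | none => exact absurd hw' (by simp [wst])
      | some p =>
        obtain ⟨y', s'⟩ := p
        rw [wst_some] at hw'
        exact absurd hw'.2.1 hy
  refine ⟨fun w => ?_⟩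
  cases w with
  | some p => exact hacc p.1 p.2
  | none =>
    refine Acc.intro _ fun w' hw' => ?_
    cases w' with
    | none => exact absurd hw' (by simp [wst])
    | some p => exact hacc p.1 p.2

theorem ltb_iff {q' q : Q'} : ltb T q' q = true ↔
    q'.1 = q.1 ∧ stp T q.1 q'.2.1 q.2.1 = true ∧ wst T q'.2.2 q.2.2 = true := by
  unfold ltb
  simp only [Bool.and_eq_true, decide_eq_true_eq]

include hT in
theorem ltb_wf : WellFounded fun q' q => ltb T q' q = true := by
  refine Subrelation.wf ?_ (InvImage.wf (fun q : Q' => q.2.2) (wst_wf hT))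
  intro q' q h
  rw [ltb_iff] at h
  exact h.2.2

include hT in
theorem rr_wf : WellFounded fun b a => rr T b a = true :=
  InvImage.wf (fun n : ℕ => Denumerable.ofNat Q' n) (ltb_wf hT)

/-- rank of a state -/
noncomputable def Bq (q : Q') : Ordinal.{0} := B (rr_wf hT) (Encodable.encode q)

theorem rr_encode (q' q : Q') : rr T (Encodable.encode q') (Encodable.encode q) = ltb T q' q := by
  unfold rr
  rw [Denumerable.ofNat_encode, Denumerable.ofNat_encode]

theorem Bq_lt {q' q : Q'} (h : ltb T q' q = true) : Bq hT q' < Bq hT q :=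
  B_lt (rr_wf hT) (by rw [rr_encode]; exact h)

theorem Bq_le {q p : Q'} (h : ∀ q', ltb T q' q = true → ∃ p', ltb T p' p = true ∧
    Bq hT q' ≤ Bq hT p') : Bq hT q ≤ Bq hT p := by
  refine B_le (rr_wf hT) fun b hb => ?_
  obtain ⟨p', h1, h2⟩ := h (Denumerable.ofNat Q' b) (by
    unfold rr at hb
    rw [Denumerable.ofNat_encode] at hb
    exact hb)
  refine ⟨Encodable.encode p', by rw [rr_encode]; exact h1, ?_⟩
  unfold Bq at h2
  rw [Denumerable.encode_ofNat] at h2
  exact h2

theorem Bq_app {g : Equiv.Perm ℕ} (hg : g ∈ G) (q : Q') :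
    Bq hT q ≤ Bq hT (q.1.map g, app g q.2.1, q.2.2) := by
  induction q using (ltb_wf hT).induction with
  | _ q ih =>
    refine Bq_le hT fun q' hq' => ⟨_, ?_, ih q' hq'⟩
    rw [ltb_iff] at hq' ⊢
    refine ⟨by rw [hq'.1], ?_, hq'.2.2⟩
    exact stp_app hT hg hq'.2.1

theorem Bq_z {y : List ℕ} (hy : Zp T y) (q : Q') (hq : q.1 = y) (i : ℕ) :
    Bq hT q ≤ Bq hT (List.range y.length, List.replicate i [], some (y, q.2.1)) := by
  induction q using (ltb_wf hT).induction generalizing i with
  | _ q ih =>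
    refine Bq_le hT fun q' hq' => ?_
    rw [ltb_iff] at hq'
    refine ⟨_, ?_, ih q' (by rw [ltb_iff]; exact hq') (hq'.1.trans hq) (i + 1)⟩
    rw [ltb_iff]
    refine ⟨rfl, stp_replicate _ _, ?_⟩
    rw [wst_some]
    refine ⟨rfl, hy, ?_⟩
    rw [← hq]
    exact hq'.2.1

/-- rank of a tuple -/
noncomputable def Bt (y : List ℕ) : Ordinal.{0} := Bq hT (y, [], none)

theorem Bt_map {g : Equiv.Perm ℕ} (hg : g ∈ G) (y : List ℕ) : Bt hT (y.map g) = Bt hT y := by
  apply le_antisymm
  · have h := Bq_app hT (G.inv_mem hg) (y.map g, [], none)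
    refine le_trans h (le_of_eq ?_)
    unfold Bt
    congr 2
    simp only [List.map_map]
    conv_rhs => rw [← List.map_id y]
    congr 1
    funext x
    simp
  · exact Bq_app hT hg (y, [], none)

theorem Bt_lt {y : List ℕ} (hy : Zp T y) : Bt hT y < Bt hT (List.range y.length) := by
  have h1 := Bq_z hT hy (y, [], none) rfl 1
  refine lt_of_le_of_lt h1 (Bq_lt hT ?_)
  rw [ltb_iff]
  refine ⟨rfl, ?_, ?_⟩
  · exact stp_replicate y.length 0
  · rw [wst_none]
    exact ⟨hy, rfl⟩

/-- a permutation which preserves the ranks belongs to the group -/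
theorem mem_of_Bt {σ : Equiv.Perm ℕ} (h : ∀ y : List ℕ, Bt hT (y.map σ) = Bt hT y) : σ ∈ G := by
  by_contra hσ
  obtain ⟨N, hN⟩ := exists_z hT hσ
  have h1 := Bt_lt hT hN
  rw [h] at h1
  simp at h1

end

end Pool.Agent.H880R3.Aut
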