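import Pool.Agent.H880R3.AutRank

/-!
The computable structure and its automorphisms.
-/

namespace Pool.Agent.H880R3.Aut

open Ordinal

/-- boolean version of `valid` -/
def validb (T : List ℕ → List ℕ → Bool) (a : ℕ) (u : List ℕ) : Bool :=
  ball u.length fun j => rr T (u.getD j 0).unpair.1 (if j = 0 then a else (u.getD (j - 1) 0).unpair.1)

theorem validb_iff (T : List ℕ → List ℕ → Bool) (a : ℕ) (u : List ℕ) :
    validb T a u = true ↔ valid (rr T) a u := by
  induction u generalizing a with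
  | nil => simp [validb, ball_iff, valid]
  | cons i u ih =>
    have h1 : valid (rr T) a (i :: u) ↔ rr T i.unpair.1 a = true ∧ valid (rr T) i.unpair.1 u :=
      Iff.rfl
    rw [h1, ← ih]
    unfold validb
    rw [ball_iff, ball_iff]
    constructor
    · intro h
      refine ⟨by simpa using h 0 (by simp), fun j hj => ?_⟩
      have h2 := h (j + 1) (by simpa using hj)
      rw [List.getD_cons_succ, if_neg (by omega), Nat.add_sub_cancel] at h2
      cases j with
      | zero => simpa using h2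
      | succ j =>
        rw [List.getD_cons_succ] at h2
        simpa using h2
    · rintro ⟨h2, h3⟩ j hj
      cases j with
      | zero => simpa using h2
      | succ j =>
        have h4 := h3 j (by simpa using hj)
        rw [List.getD_cons_succ, if_neg (by omega), Nat.add_sub_cancel]
        cases j with
        | zero => simpa using h4
        | succ j =>
          rw [List.getD_cons_succ]
          simpa using h4

/-- boolean version of `kb` -/
def kbb (u v : List ℕ) : Bool :=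
  !ball u.length fun j => !(ball j (fun i => decide (i < v.length) && decide (u.getD i 0 = v.getD i 0)) &&
    (decide (v.length ≤ j) || decide (u.getD j 0 < v.getD j 0)))

theorem kbb_iff' (u v : List ℕ) : kbb u v = true ↔ ∃ j < u.length,
    (∀ i < j, i < v.length ∧ u.getD i 0 = v.getD i 0) ∧ (v.length ≤ j ∨ u.getD j 0 < v.getD j 0) := by
  unfold kbb
  rw [Bool.not_eq_true', ← Bool.not_eq_true, ball_iff]
  push Not
  constructor
  · rintro ⟨j, h1, h2⟩
    refine ⟨j, h1, ?_⟩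
    simpa [ball_iff, or_iff_not_imp_left] using h2
  · rintro ⟨j, h1, h2⟩
    refine ⟨j, h1, ?_⟩
    simpa [ball_iff, or_iff_not_imp_left] using h2

theorem kbb_iff (u v : List ℕ) : kbb u v = true ↔ kb u v := by
  rw [kbb_iff']
  induction u generalizing v with
  | nil =>
    have h1 : ¬ kb [] v := by cases v <;> exact id
    constructor
    · rintro ⟨j, hj, -⟩
      simp at hj
    · exact fun h => absurd h h1
  | cons i u ih =>
    cases v with
    | nil => exact ⟨fun _ => trivial, fun _ => ⟨0, by simp, by simp, Or.inl (by simp)⟩⟩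
    | cons j v =>
      have h1 : kb (i :: u) (j :: v) ↔ i < j ∨ (i = j ∧ kb u v) := Iff.rfl
      rw [h1, ← ih]
      constructor
      · rintro ⟨m, h2, h3, h4⟩
        cases m with
        | zero =>
          left
          simpa using h4
        | succ m =>
          right
          refine ⟨by simpa using (h3 0 (by omega)).2, m, by simpa using h2, ?_, ?_⟩
          · intro k hk
            simpa using h3 (k + 1) (by omega)
          · simpa using h4
      · rintro (h | ⟨rfl, m, h2, h3, h4⟩)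
        · exact ⟨0, by simp, by simp, Or.inr (by simpa using h)⟩
        · refine ⟨m + 1, by simpa using h2, ?_, by simpa using h4⟩
          intro k hk
          cases k with
          | zero => simp
          | succ k => simpa using h3 k (by omega)

/-- decoding of elements -/
def dc (c : ℕ) : List ℕ × List ℕ := Denumerable.ofNat (List ℕ × List ℕ) c

/-- the root state of a tuple -/
def rootc (y : List ℕ) : ℕ := Encodable.encode ((y, [], none) : Q')

def vb (T : List ℕ → List ℕ → Bool) (c : ℕ) : Bool := validb T (rootc (dc c).1) (dc c).2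

/-- the element `z` represents a point of the order attached to a tuple -/
def Vl (T : List ℕ → List ℕ → Bool) (z : ℕ) : Prop := z % 2 = 1 ∧ vb T (z / 2) = true

def tup (z : ℕ) : List ℕ := (dc (z / 2)).1

section

variable {T : List ℕ → List ℕ → Bool} {G : Subgroup (Equiv.Perm ℕ)}
  (hT : ∀ f g : ℕ → ℕ,
          (∀ n : ℕ, T ((List.range n).map f) ((List.range n).map g) = true) ↔
            ∃ σ ∈ G, (⇑σ = f ∧ ⇑σ.symm = g))

noncomputable def ps (z : ℕ) : Ordinal.{0} := pos (rr_wf hT) (rootc (tup z)) (dc (z / 2)).2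

theorem ps_le {z : ℕ} (h : Vl T z) : ps hT z ≤ Bt hT (tup z) :=
  pos_le (rr_wf hT) ((validb_iff _ _ _).1 h.2)

theorem ps_lt_iff {z z' : ℕ} (h : Vl T z) (h' : Vl T z') (ht : tup z = tup z') :
    ps hT z < ps hT z' ↔ kb (dc (z / 2)).2 (dc (z' / 2)).2 := by
  have h1 : valid (rr T) (rootc (tup z)) (dc (z / 2)).2 := (validb_iff _ _ _).1 h.2
  have h2 : valid (rr T) (rootc (tup z')) (dc (z' / 2)).2 := (validb_iff _ _ _).1 h'.2
  unfold ps
  rw [← ht] at h2 ⊢
  exact (kb_iff (rr_wf hT) h1 h2).symm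

theorem vl_inj {z z' : ℕ} (h : Vl T z) (h' : Vl T z') (ht : tup z = tup z')
    (hp : ps hT z = ps hT z') : z = z' := by
  have h1 : valid (rr T) (rootc (tup z)) (dc (z / 2)).2 := (validb_iff _ _ _).1 h.2
  have h2 : valid (rr T) (rootc (tup z')) (dc (z' / 2)).2 := (validb_iff _ _ _).1 h'.2
  unfold ps at hp
  rw [← ht] at h2 hp
  have h3 := pos_inj (rr_wf hT) h1 h2 hp
  have h4 : dc (z / 2) = dc (z' / 2) := Prod.ext ht h3
  have h5 : z / 2 = z' / 2 := by
    have := congrArg Encodable.encode h4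
    unfold dc at this
    rwa [Denumerable.encode_ofNat, Denumerable.encode_ofNat] at this
  have h6 := h.1
  have h7 := h'.1
  omega

theorem vl_ex {y : List ℕ} {θ : Ordinal.{0}} (h : θ ≤ Bt hT y) :
    ∃ z, Vl T z ∧ tup z = y ∧ ps hT z = θ := by
  obtain ⟨u, hu, hu2⟩ := pos_surj (rr_wf hT) (rootc y) θ h
  have e1 : (2 * Encodable.encode (y, u) + 1) / 2 = Encodable.encode (y, u) := by omega
  have e2 : dc (Encodable.encode (y, u)) = (y, u) := Denumerable.ofNat_encode _
  refine ⟨2 * Encodable.encode (y, u) + 1, ⟨by omega, ?_⟩, ?_, ?_⟩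
  · rw [e1]
    unfold vb
    rw [e2]
    exact (validb_iff _ _ _).2 hu
  · unfold tup
    rw [e1, e2]
  · unfold ps tup
    rw [e1, e2]
    exact hu2

open Classical in
/-- the extension of a permutation -/
noncomputable def ex (σ : Equiv.Perm ℕ) (z : ℕ) : ℕ :=
  if z % 2 = 0 then 2 * σ (z / 2) else
  if h : Vl T z ∧ ∃ z', Vl T z' ∧ tup z' = (tup z).map σ ∧ ps hT z' = ps hT z then
    h.2.choose else z

theorem ex_even {σ : Equiv.Perm ℕ} {z : ℕ} (h : z % 2 = 0) : ex hT σ z = 2 * σ (z / 2) := by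
  unfold ex
  rw [if_pos h]

theorem ex_two (σ : Equiv.Perm ℕ) (m : ℕ) : ex hT σ (2 * m) = 2 * σ m := by
  rw [ex_even hT (by omega)]
  congr 2
  omega

theorem ex_vl {σ : Equiv.Perm ℕ} (hσ : σ ∈ G) {z : ℕ} (h : Vl T z) :
    Vl T (ex hT σ z) ∧ tup (ex hT σ z) = (tup z).map σ ∧ ps hT (ex hT σ z) = ps hT z := by
  have h1 : ∃ z', Vl T z' ∧ tup z' = (tup z).map σ ∧ ps hT z' = ps hT z :=
    vl_ex hT (by rw [Bt_map hT hσ]; exact ps_le hT h)
  unfold ex
  rw [if_neg (by rw [h.1]; omega), dif_pos ⟨h, h1⟩]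
  exact h1.choose_spec

theorem ex_dummy {σ : Equiv.Perm ℕ} {z : ℕ} (h : z % 2 = 1) (h' : ¬ Vl T z) : ex hT σ z = z := by
  unfold ex
  rw [if_neg (by omega), dif_neg (fun hh => h' hh.1)]

theorem ex_mul {σ τ : Equiv.Perm ℕ} (hσ : σ ∈ G) (hτ : τ ∈ G) (z : ℕ) :
    ex hT (σ * τ) z = ex hT σ (ex hT τ z) := by
  rcases Nat.mod_two_eq_zero_or_one z with h | h
  · rw [ex_even hT h, ex_even hT h, ex_two]
    rfl
  · by_cases h' : Vl T z
    · obtain ⟨a1, a2, a3⟩ := ex_vl hT hτ h'
      obtain ⟨b1, b2, b3⟩ := ex_vl hT hσ a1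
      obtain ⟨c1, c2, c3⟩ := ex_vl hT (G.mul_mem hσ hτ) h'
      refine vl_inj hT c1 b1 ?_ ?_
      · rw [c2, b2, a2, List.map_map]
        rfl
      · rw [c3, b3, a3]
    · rw [ex_dummy hT h h', ex_dummy hT h h', ex_dummy hT h h']

theorem ex_one (z : ℕ) : ex hT 1 z = z := by
  rcases Nat.mod_two_eq_zero_or_one z with h | h
  · rw [ex_even hT h]
    show 2 * (z / 2) = z
    omega
  · by_cases h' : Vl T z
    · obtain ⟨a1, a2, a3⟩ := ex_vl hT G.one_mem h'
      refine vl_inj hT a1 h' ?_ a3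
      rw [a2]
      simp
    · rw [ex_dummy hT h h']

/-- the extension as a permutation -/
noncomputable def exP (σ : G) : Equiv.Perm ℕ where
  toFun := ex hT σ.1
  invFun := ex hT (σ⁻¹ : G).1
  left_inv z := by
    rw [← ex_mul hT (σ⁻¹ : G).2 σ.2]
    have : ((σ⁻¹ : G).1 * σ.1 : Equiv.Perm ℕ) = 1 := by simp
    rw [this, ex_one]
  right_inv z := by
    rw [← ex_mul hT σ.2 (σ⁻¹ : G).2]
    have : (σ.1 * (σ⁻¹ : G).1 : Equiv.Perm ℕ) = 1 := by simp
    rw [this, ex_one]

theorem exP_apply (σ : G) (z : ℕ) : exP hT σ z = ex hT σ.1 z := rfl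

theorem exP_mul (σ τ : G) : exP hT (σ * τ) = exP hT σ * exP hT τ := by
  ext z
  rw [Equiv.Perm.mul_apply, exP_apply, exP_apply, exP_apply]
  exact ex_mul hT σ.2 τ.2 z

/-! ### the relations -/

def R0 (l : List ℕ) : Bool := decide (l.length = 1) && decide (l.getD 0 0 % 2 = 0)

def R1 (T : List ℕ → List ℕ → Bool) (l : List ℕ) : Bool :=
  decide (0 < l.length) && (decide (l.getD 0 0 % 2 = 1) && (vb T (l.getD 0 0 / 2) &&
    decide (l.tail = (dc (l.getD 0 0 / 2)).1.map (fun m => 2 * m))))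

def R2 (T : List ℕ → List ℕ → Bool) (l : List ℕ) : Bool :=
  (decide (l.length = 2) && (decide (l.getD 0 0 % 2 = 1) && decide (l.getD 1 0 % 2 = 1))) &&
    ((vb T (l.getD 0 0 / 2) && vb T (l.getD 1 0 / 2)) &&
    (decide ((dc (l.getD 0 0 / 2)).1 = (dc (l.getD 1 0 / 2)).1) &&
      kbb (dc (l.getD 0 0 / 2)).2 (dc (l.getD 1 0 / 2)).2))

def R3 (T : List ℕ → List ℕ → Bool) (i : ℕ) (l : List ℕ) : Bool :=
  (decide (l = [i]) && decide (i % 2 = 1)) && !vb T (i / 2)

/-- the relations of the structure -/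
def Rl (T : List ℕ → List ℕ → Bool) (i : ℕ) (l : List ℕ) : Bool :=
  bif decide (i = 0) then R0 l else
  bif decide (i = 1) then R1 T l else
  bif decide (i = 2) then R2 T l else R3 T (i - 3) l

theorem R0_iff (l : List ℕ) : R0 l = true ↔ ∃ z, l = [z] ∧ z % 2 = 0 := by
  unfold R0
  rw [Bool.and_eq_true, decide_eq_true_eq, decide_eq_true_eq]
  constructor
  · rintro ⟨h1, h2⟩
    obtain ⟨z, rfl⟩ := List.length_eq_one_iff.1 h1
    exact ⟨z, rfl, by simpa using h2⟩
  · rintro ⟨z, rfl, h⟩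
    exact ⟨rfl, by simpa using h⟩

theorem R1_iff (l : List ℕ) : R1 T l = true ↔ ∃ z, Vl T z ∧ l = z :: (tup z).map (fun m => 2 * m) := by
  unfold R1 Vl tup
  simp only [Bool.and_eq_true, decide_eq_true_eq]
  constructor
  · rintro ⟨h1, h2, h3, h4⟩
    cases l with
    | nil => simp at h1
    | cons z l =>
      simp only [List.getD_cons_zero, List.tail_cons] at h2 h3 h4
      exact ⟨z, ⟨h2, h3⟩, by rw [← h4]⟩
  · rintro ⟨z, ⟨h1, h2⟩, rfl⟩
    simp only [List.getD_cons_zero, List.tail_cons]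
    exact ⟨by simp, h1, h2, trivial⟩

theorem R2_iff (l : List ℕ) : R2 T l = true ↔ ∃ z z', Vl T z ∧ Vl T z' ∧ l = [z, z'] ∧
    tup z = tup z' ∧ ps hT z < ps hT z' := by
  have key : R2 T l = true ↔ ∃ z z', Vl T z ∧ Vl T z' ∧ l = [z, z'] ∧
      tup z = tup z' ∧ kb (dc (z / 2)).2 (dc (z' / 2)).2 := by
    unfold R2 Vl tup
    simp only [Bool.and_eq_true, decide_eq_true_eq, kbb_iff]
    constructor
    · rintro ⟨⟨h1, h2, h3⟩, ⟨h4, h5⟩, h6, h7⟩
      obtain ⟨z, z', rfl⟩ := List.length_eq_two.1 h1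
      exact ⟨z, z', ⟨by simpa using h2, by simpa using h4⟩, ⟨by simpa using h3, by simpa using h5⟩,
        rfl, by simpa using h6, by simpa using h7⟩
    · rintro ⟨z, z', ⟨h2, h4⟩, ⟨h3, h5⟩, rfl, h6, h7⟩
      exact ⟨⟨rfl, h2, h3⟩, ⟨h4, h5⟩, h6, h7⟩
  rw [key]
  constructor
  · rintro ⟨z, z', h1, h2, h3, h4, h5⟩
    exact ⟨z, z', h1, h2, h3, h4, (ps_lt_iff hT h1 h2 h4).2 h5⟩
  · rintro ⟨z, z', h1, h2, h3, h4, h5⟩
    exact ⟨z, z', h1, h2, h3, h4, (ps_lt_iff hT h1 h2 h4).1 h5⟩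

theorem R3_iff (i : ℕ) (l : List ℕ) : R3 T i l = true ↔ l = [i] ∧ i % 2 = 1 ∧ ¬ Vl T i := by
  unfold R3 Vl
  simp only [Bool.and_eq_true, decide_eq_true_eq, Bool.not_eq_true']
  constructor
  · rintro ⟨⟨h1, h2⟩, h3⟩
    exact ⟨h1, h2, fun h => by rw [h.2] at h3; exact Bool.noConfusion h3⟩
  · rintro ⟨h1, h2, h3⟩
    refine ⟨⟨h1, h2⟩, ?_⟩
    rw [← Bool.not_eq_true]
    exact fun h => h3 ⟨h2, h⟩

theorem Rl_zero (l : List ℕ) : Rl T 0 l = R0 l := rfl
theorem Rl_one (l : List ℕ) : Rl T 1 l = R1 T l := rfl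
theorem Rl_two (l : List ℕ) : Rl T 2 l = R2 T l := rfl
theorem Rl_three (i : ℕ) (l : List ℕ) : Rl T (i + 3) l = R3 T i l := by
  unfold Rl
  rw [decide_eq_false (by omega), decide_eq_false (by omega), decide_eq_false (by omega)]
  simp

/-- the extensions preserve the relations -/
theorem Rl_imp (σ : G) (i : ℕ) (l : List ℕ) (h : Rl T i l = true) :
    Rl T i (l.map (exP hT σ)) = true := by
  rcases i with _ | _ | _ | i
  · rw [Rl_zero, R0_iff] at h ⊢
    obtain ⟨z, rfl, hz⟩ := h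
    refine ⟨_, rfl, ?_⟩
    rw [exP_apply, ex_even hT hz]
    omega
  · rw [show 0 + 1 = 1 from rfl, Rl_one, R1_iff] at h ⊢
    obtain ⟨z, hz, rfl⟩ := h
    obtain ⟨a1, a2, a3⟩ := ex_vl hT σ.2 hz
    refine ⟨exP hT σ z, a1, ?_⟩
    rw [List.map_cons, exP_apply, a2, List.map_map, List.map_map]
    congr 1
    apply List.map_congr_left
    intro m _
    show exP hT σ (2 * m) = 2 * σ.1 m
    rw [exP_apply, ex_two]
  · rw [show 0 + 1 + 1 = 2 from rfl, Rl_two, R2_iff hT] at h ⊢
    obtain ⟨z, z', hz, hz', rfl, h1, h2⟩ := h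
    obtain ⟨a1, a2, a3⟩ := ex_vl hT σ.2 hz
    obtain ⟨b1, b2, b3⟩ := ex_vl hT σ.2 hz'
    refine ⟨exP hT σ z, exP hT σ z', a1, b1, rfl, ?_, ?_⟩
    · rw [exP_apply, exP_apply, a2, b2, h1]
    · rw [exP_apply, exP_apply, a3, b3]
      exact h2
  · rw [show i + 1 + 1 + 1 = i + 3 from rfl, Rl_three, R3_iff] at h ⊢
    obtain ⟨rfl, h1, h2⟩ := h
    refine ⟨?_, h1, h2⟩
    rw [List.map_singleton, exP_apply, ex_dummy hT h1 h2]

end

end Pool.Agent.H880R3.Aut
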