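import Pool.Agent.H880R3.AutOrd

/-!
Trees of chains of partial attempts.
-/

namespace Pool.Agent.H880R3.Aut

abbrev Seq' : Type := List (List (ℕ × ℕ))

/-- bounded universal quantifier -/
def ball (n : ℕ) (p : ℕ → Bool) : Bool := Nat.rec true (fun k acc => acc && p k) n

theorem ball_iff (n : ℕ) (p : ℕ → Bool) : ball n p = true ↔ ∀ k < n, p k = true := by
  induction n with
  | zero => simp [ball]
  | succ n ih =>
    have : ball (n + 1) p = (ball n p && p n) := rfl
    rw [this, Bool.and_eq_true, ih]
    constructor
    · rintro ⟨h1, h2⟩ k hk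
      rcases Nat.lt_succ_iff_lt_or_eq.1 hk with h | rfl
      · exact h1 k h
      · exact h2
    · intro h
      exact ⟨fun k hk => h k (by omega), h n (by omega)⟩

/-- the `m`-th row -/
def nrow (s : Seq') (m : ℕ) : List (ℕ × ℕ) := s.reverse.getD m []

/-- the number of components -/
def kk (s : Seq') : ℕ := (nrow s 0).length

def fa (s : Seq') (i m : ℕ) : ℕ := ((nrow s m).getD i (0, 0)).1

def ga (s : Seq') (i m : ℕ) : ℕ := ((nrow s m).getD i (0, 0)).2

/-- image of `j` under the composite of the first `i` components -/
def cmp (s : Seq') (j : ℕ) (i : ℕ) : Option ℕ :=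
  Nat.rec (some j) (fun i o => o.bind fun v => if v < s.length then some (fa s i v) else none) i

def chk (o : Option ℕ) (v : ℕ) : Bool := (o.map fun w => decide (w = v)).getD true

theorem chk_iff (o : Option ℕ) (v : ℕ) : chk o v = true ↔ ∀ w ∈ o, w = v := by
  cases o <;> simp [chk]

def okb (T : List ℕ → List ℕ → Bool) (y : List ℕ) (s : Seq') : Bool :=
  ball s.length (fun m => decide ((nrow s m).length = kk s)) &&
  (ball (kk s) (fun i => ball (s.length + 1) fun m =>
      T ((List.range m).map (fa s i)) ((List.range m).map (ga s i))) &&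
    ball y.length fun j => chk (cmp s j (kk s)) (y.getD j 0))

def Ok (T : List ℕ → List ℕ → Bool) (y : List ℕ) (s : Seq') : Prop :=
  (∀ m < s.length, (nrow s m).length = kk s) ∧
  (∀ i < kk s, ∀ m ≤ s.length,
    T ((List.range m).map (fa s i)) ((List.range m).map (ga s i)) = true) ∧
  (∀ j < y.length, ∀ v ∈ cmp s j (kk s), v = y.getD j 0)

theorem okb_iff (T : List ℕ → List ℕ → Bool) (y : List ℕ) (s : Seq') :
    okb T y s = true ↔ Ok T y s := by
  unfold okb Ok
  simp only [Bool.and_eq_true, ball_iff, decide_eq_true_eq, chk_iff, Nat.lt_succ_iff]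

def stp (T : List ℕ → List ℕ → Bool) (y : List ℕ) (s' s : Seq') : Bool :=
  decide (s'.length = s.length + 1) && (decide (s'.tail = s) && okb T y s')

theorem stp_iff {T : List ℕ → List ℕ → Bool} {y : List ℕ} {s' s : Seq'} :
    stp T y s' s = true ↔ ∃ row, s' = row :: s ∧ Ok T y s' := by
  unfold stp
  simp only [Bool.and_eq_true, decide_eq_true_eq, okb_iff]
  constructor
  · rintro ⟨h1, h2, h3⟩
    cases s' with
    | nil => simp at h1
    | cons row t => exact ⟨row, by rw [← h2]; rfl, h3⟩
  · rintro ⟨row, rfl, h⟩
    exact ⟨rfl, rfl, h⟩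

theorem nrow_cons (row : List (ℕ × ℕ)) (s : Seq') (m : ℕ) :
    nrow (row :: s) m = if m = s.length then row else nrow s m := by
  unfold nrow
  rw [List.reverse_cons]
  by_cases h : m < s.length
  · rw [if_neg (by omega), List.getD_append _ _ _ _ (by simpa using h)]
  · by_cases h2 : m = s.length
    · subst h2
      rw [if_pos rfl, List.getD_append_right _ _ _ _ (by simp)]
      simp
    · rw [if_neg h2, List.getD_eq_default _ _ (by simp; omega),
        List.getD_eq_default _ _ (by simp; omega)]

/-- append the pair `(g, g⁻¹)` as a further component -/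
def app (g : Equiv.Perm ℕ) : Seq' → Seq'
  | [] => []
  | row :: s => (row ++ [(g s.length, g.symm s.length)]) :: app g s

theorem app_length (g : Equiv.Perm ℕ) (s : Seq') : (app g s).length = s.length := by
  induction s with
  | nil => rfl
  | cons row s ih => simp [app, ih]

theorem nrow_app (g : Equiv.Perm ℕ) (s : Seq') (m : ℕ) (h : m < s.length) :
    nrow (app g s) m = nrow s m ++ [(g m, g.symm m)] := by
  induction s with
  | nil => simp at h
  | cons row s ih =>
    rw [app, nrow_cons, nrow_cons, app_length]
    by_cases h2 : m = s.length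
    · rw [if_pos h2, if_pos h2, h2]
    · rw [if_neg h2, if_neg h2]
      exact ih (by rw [List.length_cons] at h; omega)

theorem kk_app (g : Equiv.Perm ℕ) (s : Seq') (h : 0 < s.length) : kk (app g s) = kk s + 1 := by
  unfold kk
  rw [nrow_app g s 0 h]
  simp

theorem getD_app_lt {l : List (ℕ × ℕ)} {a : ℕ × ℕ} {i : ℕ} (h : i < l.length) :
    (l ++ [a]).getD i (0, 0) = l.getD i (0, 0) := List.getD_append _ _ _ _ h

theorem getD_app_eq {l : List (ℕ × ℕ)} {a : ℕ × ℕ} {i : ℕ} (h : i = l.length) :
    (l ++ [a]).getD i (0, 0) = a := by
  subst h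
  rw [List.getD_append_right _ _ _ _ le_rfl]
  simp

section

variable {T : List ℕ → List ℕ → Bool} {G : Subgroup (Equiv.Perm ℕ)}
  (hT : ∀ f g : ℕ → ℕ,
          (∀ n : ℕ, T ((List.range n).map f) ((List.range n).map g) = true) ↔
            ∃ σ ∈ G, (⇑σ = f ∧ ⇑σ.symm = g))

theorem map_range_congr {m : ℕ} {f g : ℕ → ℕ} (h : ∀ i < m, f i = g i) :
    (List.range m).map f = (List.range m).map g := by
  apply List.map_congr_left
  intro i hi
  exact h i (List.mem_range.1 hi)

include hT in
theorem ok_app {g : Equiv.Perm ℕ} (hg : g ∈ G) {y : List ℕ} {s : Seq'} (h0 : 0 < s.length)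
    (h : Ok T y s) : Ok T (y.map g) (app g s) := by
  obtain ⟨h1, h2, h3⟩ := h
  refine ⟨?_, ?_, ?_⟩
  · intro m hm
    rw [app_length] at hm
    rw [nrow_app g s m hm, kk_app g s h0, ← h1 m hm]
    simp
  · intro i hi m hm
    rw [kk_app g s h0] at hi
    rw [app_length] at hm
    rcases Nat.lt_succ_iff_lt_or_eq.1 hi with hi | hi
    · have e1 : (List.range m).map (fa (app g s) i) = (List.range m).map (fa s i) := by
        apply map_range_congr
        intro j hj
        unfold fa
        rw [nrow_app g s j (by omega), getD_app_lt (by rw [h1 j (by omega)]; exact hi)]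
      have e2 : (List.range m).map (ga (app g s) i) = (List.range m).map (ga s i) := by
        apply map_range_congr
        intro j hj
        unfold ga
        rw [nrow_app g s j (by omega), getD_app_lt (by rw [h1 j (by omega)]; exact hi)]
      rw [e1, e2]
      exact h2 i hi m hm
    · have e1 : (List.range m).map (fa (app g s) i) = (List.range m).map g := by
        apply map_range_congr
        intro j hj
        unfold fa
        rw [nrow_app g s j (by omega), getD_app_eq (by rw [h1 j (by omega)]; exact hi)]
      have e2 : (List.range m).map (ga (app g s) i) = (List.range m).map g.symm := by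
        apply map_range_congr
        intro j hj
        unfold ga
        rw [nrow_app g s j (by omega), getD_app_eq (by rw [h1 j (by omega)]; exact hi)]
      rw [e1, e2]
      exact (hT g g.symm).2 ⟨g, hg, rfl, rfl⟩ m
  · have hc : ∀ j i, i ≤ kk s → cmp (app g s) j i = cmp s j i := by
      intro j i
      induction i with
      | zero => intro _; rfl
      | succ i ih =>
        intro hi
        show (cmp (app g s) j i).bind (fun v => if v < (app g s).length then
            some (fa (app g s) i v) else none) =
          (cmp s j i).bind (fun v => if v < s.length then some (fa s i v) else none)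
        rw [ih (by omega), app_length]
        congr 1
        funext v
        by_cases hv : v < s.length
        · rw [if_pos hv, if_pos hv]
          unfold fa
          rw [nrow_app g s v hv, getD_app_lt (by rw [h1 v hv]; omega)]
        · rw [if_neg hv, if_neg hv]
    intro j hj v hv
    rw [List.length_map] at hj
    rw [kk_app g s h0] at hv
    have hv' : v ∈ (cmp (app g s) j (kk s)).bind (fun v => if v < (app g s).length then
            some (fa (app g s) (kk s) v) else none) := hv
    rw [hc j _ le_rfl, app_length, Option.mem_def, Option.bind_eq_some_iff] at hv'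
    obtain ⟨w, hw, hv2⟩ := hv'
    have hw2 := h3 j hj w hw
    by_cases hws : w < s.length
    · rw [if_pos hws, Option.some.injEq] at hv2
      rw [← hv2]
      unfold fa
      rw [nrow_app g s w hws, getD_app_eq (by rw [h1 w hws]), hw2]
      rw [List.getD_eq_getElem _ _ hj, List.getD_eq_getElem _ _ (by simpa using hj)]
      simp
    · rw [if_neg hws] at hv2
      exact absurd hv2 (by simp)

include hT in
theorem stp_app {g : Equiv.Perm ℕ} (hg : g ∈ G) {y : List ℕ} {s' s : Seq'}
    (h : stp T y s' s = true) : stp T (y.map g) (app g s') (app g s) = true := by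
  rw [stp_iff] at h ⊢
  obtain ⟨row, rfl, h⟩ := h
  exact ⟨_, rfl, ok_app hT hg (by simp) h⟩

end

theorem stp_replicate {T : List ℕ → List ℕ → Bool} (n i : ℕ) :
    stp T (List.range n) (List.replicate (i + 1) []) (List.replicate i []) = true := by
  rw [stp_iff]
  refine ⟨[], rfl, ?_⟩
  have h0 : ∀ m, nrow (List.replicate (i + 1) []) m = [] := by
    intro m
    unfold nrow
    rw [List.reverse_replicate]
    by_cases h : m < i + 1
    · rw [List.getD_eq_getElem _ _ (by simpa using h)]
      simp
    · rw [List.getD_eq_default _ _ (by simp; omega)]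
  have h1 : kk (List.replicate (i + 1) []) = 0 := by
    unfold kk
    rw [h0]; rfl
  refine ⟨fun m _ => by rw [h0, h1]; rfl, fun j hj => by rw [h1] at hj; omega, ?_⟩
  intro j hj v hv
  rw [h1] at hv
  have hv' : some j = some v := hv
  rw [List.length_range] at hj
  rw [List.getD_eq_getElem _ _ (by simpa using hj)]
  simp only [Option.some.injEq] at hv'
  simp [hv']

end Pool.Agent.H880R3.Aut
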