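import Pool.Agent.H880R3.AutTree

/-!
Well-foundedness of the trees which do not belong to an orbit, and the combined relation.
-/

namespace Pool.Agent.H880R3.Aut

/-- violations -/
def zb (T : List ℕ → List ℕ → Bool) (y : List ℕ) : Bool :=
  !ball (y.length + 1) fun n => !ball n (fun i => decide (y.idxOf i < y.length)) ||
    T (y.take n) ((List.range n).map fun i => y.idxOf i)

def Zp (T : List ℕ → List ℕ → Bool) (y : List ℕ) : Prop :=
  ∃ n ≤ y.length, (∀ i < n, y.idxOf i < y.length) ∧
    T (y.take n) ((List.range n).map fun i => y.idxOf i) = false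

theorem zb_iff (T : List ℕ → List ℕ → Bool) (y : List ℕ) : zb T y = true ↔ Zp T y := by
  unfold zb Zp
  rw [Bool.not_eq_true', ← Bool.not_eq_true, ball_iff]
  push Not
  constructor
  · rintro ⟨n, h1, h2⟩
    refine ⟨n, by omega, ?_⟩
    rw [ne_eq, Bool.or_eq_true, not_or, Bool.not_eq_true', Bool.not_eq_false, ball_iff] at h2
    simp only [decide_eq_true_eq, Bool.not_eq_true] at h2
    exact h2
  · rintro ⟨n, h1, h2, h3⟩
    refine ⟨n, by omega, ?_⟩
    rw [ne_eq, Bool.or_eq_true, not_or, Bool.not_eq_true', Bool.not_eq_false, ball_iff]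
    simp only [decide_eq_true_eq, Bool.not_eq_true]
    exact ⟨h2, h3⟩

section

variable {T : List ℕ → List ℕ → Bool} {G : Subgroup (Equiv.Perm ℕ)}
  (hT : ∀ f g : ℕ → ℕ,
          (∀ n : ℕ, T ((List.range n).map f) ((List.range n).map g) = true) ↔
            ∃ σ ∈ G, (⇑σ = f ∧ ⇑σ.symm = g))

theorem idxOf_map_range {N : ℕ} {σ : Equiv.Perm ℕ} {i : ℕ} (h : σ.symm i < N) :
    ((List.range N).map σ).idxOf i = σ.symm i := by
  have hnd : ((List.range N).map σ).Nodup := (List.nodup_range).map σ.injective
  have h1 : σ.symm i < ((List.range N).map σ).length := by simpa using h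
  have h2 : ((List.range N).map σ)[σ.symm i] = i := by simp
  have h3 := hnd.idxOf_getElem (σ.symm i) h1
  rw [h2] at h3
  exact h3

include hT in
theorem z_of_mem {N : ℕ} {σ : Equiv.Perm ℕ} (hσ : σ ∈ G) : ¬ Zp T ((List.range N).map σ) := by
  rintro ⟨n, h1, h2, h3⟩
  rw [List.length_map, List.length_range] at h1
  have h4 : ((List.range N).map σ).take n = (List.range n).map σ := by
    rw [← List.map_take, List.take_range, min_eq_left h1]
  have h5 : (List.range n).map (fun i => ((List.range N).map σ).idxOf i) =
      (List.range n).map σ.symm := by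
    apply map_range_congr
    intro i hi
    apply idxOf_map_range
    have := h2 i hi
    rw [List.idxOf_lt_length_iff, List.mem_map] at this
    obtain ⟨j, hj, rfl⟩ := this
    simpa using hj
  rw [h4, h5, (hT σ σ.symm).2 ⟨σ, hσ, rfl, rfl⟩ n] at h3
  exact Bool.noConfusion h3

include hT in
theorem exists_z {σ : Equiv.Perm ℕ} (hσ : σ ∉ G) : ∃ N, Zp T ((List.range N).map σ) := by
  have h1 : ¬ ∀ n, T ((List.range n).map σ) ((List.range n).map σ.symm) = true := by
    intro h
    obtain ⟨τ, hτ, h2, -⟩ := (hT σ σ.symm).1 h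
    rw [DFunLike.coe_injective h2] at hτ
    exact hσ hτ
  push Not at h1
  obtain ⟨n, hn⟩ := h1
  obtain ⟨N, hN1, hN⟩ : ∃ N, n ≤ N ∧ ∀ i < n, σ.symm i < N := by
    refine ⟨n + (∑ i ∈ Finset.range n, (σ.symm i + 1)), by omega, fun i hi => ?_⟩
    have := Finset.single_le_sum (f := fun i => σ.symm i + 1) (fun _ _ => Nat.zero_le _)
      (Finset.mem_range.2 hi)
    omega
  refine ⟨N, n, by simpa using hN1, ?_, ?_⟩
  · intro i hi
    rw [idxOf_map_range (hN i hi)]
    simpa using hN i hi
  · have h4 : ((List.range N).map σ).take n = (List.range n).map σ := by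
      rw [← List.map_take, List.take_range, min_eq_left hN1]
    have h5 : (List.range n).map (fun i => ((List.range N).map σ).idxOf i) =
        (List.range n).map σ.symm := by
      apply map_range_congr
      intro i hi
      exact idxOf_map_range (hN i hi)
    rw [h4, h5]
    simpa using hn

include hT in
/-- a tree outside the orbit is well-founded -/
theorem stp_wf {y : List ℕ} (hy : Zp T y) : WellFounded fun s' s => stp T y s' s = true := by
  rw [wellFounded_iff_isEmpty_descending_chain]
  constructor
  rintro ⟨f, hf⟩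
  have hf' : ∀ n, ∃ row, f (n + 1) = row :: f n ∧ Ok T y (f (n + 1)) := by
    intro n
    have := hf n
    rw [stp_iff] at this
    obtain ⟨row, h1, h2⟩ := this
    exact ⟨row, h1, h2⟩
  have hlen : ∀ n, (f (n + 1)).length = (f n).length + 1 := by
    intro n
    obtain ⟨row, h1, -⟩ := hf' n
    rw [h1]; rfl
  have hlen2 : ∀ n, n ≤ (f n).length := by
    intro n
    induction n with
    | zero => exact Nat.zero_le _
    | succ n ih => rw [hlen]; omega
  have hrow : ∀ n d m, m < (f n).length → nrow (f (n + d)) m = nrow (f n) m := by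
    intro n d m hm
    induction d with
    | zero => rfl
    | succ d ih =>
      obtain ⟨row, h1, -⟩ := hf' (n + d)
      have h2 : m < (f (n + d)).length := by
        clear ih h1
        induction d with
        | zero => exact hm
        | succ d ih => 
          have := hlen (n + d)
          rw [show n + (d + 1) = n + d + 1 by ring]
          omega
      rw [show n + (d + 1) = n + d + 1 by ring, h1, nrow_cons, if_neg (by omega), ih]
  set R : ℕ → List (ℕ × ℕ) := fun m => nrow (f (m + 1)) m with hR
  have hR2 : ∀ n m, m < (f n).length → nrow (f n) m = R m := by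
    intro n m hm
    have h1 := hrow n (m + 1) m hm
    have h2 := hrow (m + 1) n m (lt_of_lt_of_le (Nat.lt_succ_self m) (hlen2 (m + 1)))
    rw [← h1, hR]
    simp only
    rw [← h2, add_comm]
  set k := (R 0).length with hk
  have hkk : ∀ n, kk (f (n + 1)) = k := by
    intro n
    unfold kk
    rw [hR2 (n + 1) 0 (lt_of_lt_of_le (Nat.succ_pos n) (hlen2 (n + 1)))]
  have hperm : ∀ i, i < k → ∃ σ ∈ G, ∀ m, σ m = ((R m).getD i (0, 0)).1 := by
    intro i hi
    have h1 : ∀ n, T ((List.range n).map fun m => ((R m).getD i (0, 0)).1)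
        ((List.range n).map fun m => ((R m).getD i (0, 0)).2) = true := by
      intro n
      obtain ⟨row, -, -, h2, -⟩ := hf' n
      have h3 := h2 i (by rw [hkk]; exact hi) n (le_trans (Nat.le_succ n) (hlen2 (n + 1)))
      have e1 : (List.range n).map (fa (f (n + 1)) i) =
          (List.range n).map fun m => ((R m).getD i (0, 0)).1 := by
        apply map_range_congr
        intro j hj
        unfold fa
        rw [hR2 (n + 1) j (lt_of_lt_of_le (by omega) (hlen2 (n + 1)))]
      have e2 : (List.range n).map (ga (f (n + 1)) i) =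
          (List.range n).map fun m => ((R m).getD i (0, 0)).2 := by
        apply map_range_congr
        intro j hj
        unfold ga
        rw [hR2 (n + 1) j (lt_of_lt_of_le (by omega) (hlen2 (n + 1)))]
      rw [e1, e2] at h3
      exact h3
    obtain ⟨σ, hσ, h2, -⟩ := (hT _ _).1 h1
    exact ⟨σ, hσ, fun m => congrFun h2 m⟩
  -- the composite
  set c : ℕ → ℕ → ℕ := fun i j => Nat.rec j (fun i v => ((R v).getD i (0, 0)).1) i with hc
  have hcs : ∀ i j, c (i + 1) j = ((R (c i j)).getD i (0, 0)).1 := fun i j => rfl
  have hcomp : ∀ i ≤ k, ∃ τ ∈ G, ∀ j, τ j = c i j := by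
    intro i
    induction i with
    | zero => exact fun _ => ⟨1, G.one_mem, fun j => rfl⟩
    | succ i ih =>
      intro hi
      obtain ⟨τ, hτ, h1⟩ := ih (by omega)
      obtain ⟨σ, hσ, h2⟩ := hperm i (by omega)
      refine ⟨σ * τ, G.mul_mem hσ hτ, fun j => ?_⟩
      rw [Equiv.Perm.mul_apply, h1, h2, hcs]
  obtain ⟨τ, hτ, hτc⟩ := hcomp k le_rfl
  have hval : ∀ j < y.length, τ j = y.getD j 0 := by
    intro j hj
    obtain ⟨N, hN⟩ : ∃ N, ∀ i < k, c i j < N := by
      refine ⟨∑ i ∈ Finset.range k, (c i j + 1), fun i hi => ?_⟩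
      have := Finset.single_le_sum (f := fun i => c i j + 1) (fun _ _ => Nat.zero_le _)
        (Finset.mem_range.2 hi)
      omega
    obtain ⟨row, -, -, -, h3⟩ := hf' N
    have hcmp : ∀ i ≤ k, cmp (f (N + 1)) j i = some (c i j) := by
      intro i
      induction i with
      | zero => exact fun _ => rfl
      | succ i ih =>
        intro hi
        show (cmp (f (N + 1)) j i).bind (fun v => if v < (f (N + 1)).length then
          some (fa (f (N + 1)) i v) else none) = _
        have h4 : c i j < (f (N + 1)).length :=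
          lt_of_lt_of_le (hN i (by omega)) (le_trans (Nat.le_succ N) (hlen2 (N + 1)))
        rw [ih (by omega), Option.bind_some, if_pos h4, hcs]
        unfold fa
        rw [hR2 (N + 1) _ h4]
    have h4 := h3 j hj (c k j) (by rw [hkk, hcmp k le_rfl]; rfl)
    rw [hτc, h4]
  have hy2 : y = (List.range y.length).map τ := by
    apply List.ext_getElem
    · simp
    · intro j h1 h2
      simp only [List.getElem_map, List.getElem_range]
      rw [hval j h1, List.getD_eq_getElem _ _ h1]
  rw [hy2] at hy
  exact z_of_mem hT hτ hy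

end

end Pool.Agent.H880R3.Aut
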